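import Pool.Agent.Helper43.FV.Spec

/-!
# Regularity is an open condition in families
-/

namespace Pool.Agent.Helper43.FV

open Pool.Agent.Helper43.RS
open scoped ComplexConjugate TensorProduct
open MvPolynomial

section

variable {K : Type} [Field K] [Algebra ℂ K] {S : Type} [CommRing S] [Algebra ℂ S]

/-- a family is identically zero or nonzero on a nonempty basic open set -/
theorem REGOPEN_zero_or {D : (S →ₐ[ℂ] ℂ) → K} (hD : Fam D) :
    (∀ z, D z = 0) ∨ ∃ s : S, s ≠ 0 ∧ ∀ z : S →ₐ[ℂ] ℂ, z s ≠ 0 → D z ≠ 0 := by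
  obtain ⟨n, s, k, h⟩ := hD
  by_cases hall : ∀ l : Module.Dual ℂ K, ∑ i, l (k i) • s i = 0
  · left
    intro z
    rw [← Module.forall_dual_apply_eq_zero_iff ℂ]
    intro l
    rw [h, map_sum]
    have h1 := congrArg z (hall l)
    rw [map_sum, map_zero] at h1
    rw [← h1]
    refine Finset.sum_congr rfl fun i _ => ?_
    rw [map_smul, map_smul, smul_eq_mul, smul_eq_mul, mul_comm]
  · right
    push Not at hall
    obtain ⟨l, hl⟩ := hall
    refine ⟨_, hl, fun z hz h0 => hz ?_⟩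
    have h1 := congrArg l (h z)
    rw [h0, map_zero, map_sum] at h1
    rw [map_sum, h1]
    refine Finset.sum_congr rfl fun i _ => ?_
    rw [map_smul, map_smul, smul_eq_mul, smul_eq_mul, mul_comm]

theorem REGOPEN_evT_tmul {R : Type} [CommRing R] [Algebra ℂ R] (z : S →ₐ[ℂ] ℂ) (s : S) (r : R) :
    evT z (s ⊗ₜ[ℂ] r) = z s • r := by
  simp [evT, Algebra.smul_def, Algebra.ofId_apply]

/-- common denominator of finitely many elements -/
theorem REGOPEN_den {R : Subalgebra ℂ K} (hR : ∀ f : K, ∃ p q : R, (q : K) ≠ 0 ∧ f * q = p)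
    {n : ℕ} (k : Fin n → K) : ∃ b : R, (b : K) ≠ 0 ∧ ∀ i, (b : K) * k i ∈ R := by
  choose p q hq hpq using fun i => hR (k i)
  refine ⟨∏ i, q i, ?_, fun i => ?_⟩
  · push_cast
    exact Finset.prod_ne_zero_iff.mpr fun i _ => hq i
  · rw [← Finset.prod_erase_mul _ _ (Finset.mem_univ i)]
    push_cast
    rw [mul_assoc, mul_comm (q i : K) (k i), hpq]
    exact R.mul_mem (R.prod_mem fun j _ => (q j).2) (p i).2

/-- a family as a tensor, up to a denominator -/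
theorem REGOPEN_tens {R : Subalgebra ℂ K} (hR : ∀ f : K, ∃ p q : R, (q : K) ≠ 0 ∧ f * q = p)
    {P : (S →ₐ[ℂ] ℂ) → K} (hP : Fam P) : ∃ (b : R) (P' : S ⊗[ℂ] R), (b : K) ≠ 0 ∧
      ∀ z, ((evT z P' : R) : K) = b * P z := by
  obtain ⟨n, s, k, h⟩ := hP
  obtain ⟨b, hb, hbk⟩ := REGOPEN_den hR k
  refine ⟨b, ∑ i, s i ⊗ₜ[ℂ] (⟨(b : K) * k i, hbk i⟩ : R), hb, fun z => ?_⟩
  rw [map_sum, h, Finset.mul_sum]
  push_cast
  refine Finset.sum_congr rfl fun i _ => ?_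
  rw [REGOPEN_evT_tmul]
  push_cast
  rw [mul_smul_comm]

/-- two families as tensors, with the same denominator -/
theorem REGOPEN_tens2 {R : Subalgebra ℂ K} (hR : ∀ f : K, ∃ p q : R, (q : K) ≠ 0 ∧ f * q = p)
    {P Q : (S →ₐ[ℂ] ℂ) → K} (hP : Fam P) (hQ : Fam Q) :
    ∃ (b : R) (P' Q' : S ⊗[ℂ] R), (b : K) ≠ 0 ∧
      (∀ z, ((evT z P' : R) : K) = b * P z) ∧ ∀ z, ((evT z Q' : R) : K) = b * Q z := by
  obtain ⟨b, P', hb, hP'⟩ := REGOPEN_tens hR hP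
  obtain ⟨c, Q', hc, hQ'⟩ := REGOPEN_tens hR hQ
  refine ⟨b * c, (1 ⊗ₜ[ℂ] c) * P', (1 ⊗ₜ[ℂ] b) * Q', ?_, fun z => ?_, fun z => ?_⟩
  · push_cast
    exact mul_ne_zero hb hc
  · rw [map_mul, REGOPEN_evT_tmul, map_one, one_smul]
    push_cast
    rw [hP']
    ring
  · rw [map_mul, REGOPEN_evT_tmul, map_one, one_smul]
    push_cast
    rw [hQ']
    ring

/-- the ideal of common denominators of `N k / D k` -/
def REGOPEN_I {T : Type} [CommRing T] {m : ℕ} (N D : Fin m → T) : Ideal T where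
  carrier := {e | ∀ k, ∃ q, e * N k = q * D k}
  zero_mem' := fun k => ⟨0, by ring⟩
  add_mem' := by
    intro a b ha hb k
    obtain ⟨q, hq⟩ := ha k
    obtain ⟨q', hq'⟩ := hb k
    exact ⟨q + q', by rw [add_mul, add_mul, hq, hq']⟩
  smul_mem' := by
    intro c a ha k
    obtain ⟨q, hq⟩ := ha k
    exact ⟨c * q, by rw [smul_eq_mul, mul_assoc, mul_assoc, hq]⟩

end

theorem REGOPEN_one (hSLICE : ST_SLICE) (hGLIFT : ST_GLIFT)
    (K : Type) [Field K] [Algebra ℂ K] (n m : ℕ) (R : Subalgebra ℂ K) (hR : IsChart R)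
    (S : Type) [CommRing S] [IsDomain S] [Algebra ℂ S] [Algebra.FiniteType ℂ S]
    (Γ : Set (S →ₐ[ℂ] ℂ)) (hΓ : DensePts Γ)
    (N D : Fin n → Fin m → (S →ₐ[ℂ] ℂ) → K) (hN : ∀ i k, Fam (N i k)) (hD : ∀ i k, Fam (D i k))
    (hyp : ∀ γ ∈ Γ, ∀ φ : R →ₐ[ℂ] ℂ, ∃ i, ∀ k, D i k γ ≠ 0 ∧ N i k γ / D i k γ ∈ locAt R φ) :
    ∃ h : S, h ≠ 0 ∧ ∀ z : S →ₐ[ℂ] ℂ, z h ≠ 0 → ∀ φ : R →ₐ[ℂ] ℂ, ∃ i, ∀ k,
        D i k z ≠ 0 ∧ N i k z / D i k z ∈ locAt R φ := by
  classical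
  have : Algebra.FiniteType ℂ R := R.fg_iff_finiteType.mp hR.fg
  have : Algebra.FiniteType ℂ (S ⊗[ℂ] R) :=
    Algebra.FiniteType.trans (S := S) inferInstance inferInstance
  -- tensors
  choose b N' D' hb hN' hD' using fun i k => REGOPEN_tens2 hR.frac (hN i k) (hD i k)
  -- good indices
  let good : Finset (Fin n) := Finset.univ.filter fun i => ∀ k, ¬ ∀ z, D i k z = 0
  have hgood : ∀ i, i ∈ good ↔ ∀ k, ¬ ∀ z, D i k z = 0 := by
    intro i; simp [good]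
  have hs : ∀ i k, ∃ s : S, s ≠ 0 ∧ (i ∈ good → ∀ z : S →ₐ[ℂ] ℂ, z s ≠ 0 → D i k z ≠ 0) := by
    intro i k
    rcases REGOPEN_zero_or (hD i k) with h | ⟨s, hs, h⟩
    · exact ⟨1, one_ne_zero, fun hi => absurd h ((hgood i).mp hi k)⟩
    · exact ⟨s, hs, fun _ => h⟩
  choose s hs0 hs using hs
  -- the ideal `J`
  let J : Ideal (S ⊗[ℂ] R) := ⨆ i : {i // i ∈ good}, REGOPEN_I (N' i.1) (D' i.1)
  have hJ : ∀ i ∈ good, ∀ e, (∀ k, ∃ q, e * N' i k = q * D' i k) → e ∈ J := by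
    intro i hi e he
    exact (le_iSup (fun i : {i // i ∈ good} => REGOPEN_I (N' i.1) (D' i.1)) ⟨i, hi⟩) he
  -- the claim
  have claim : ∃ h' : S, h' ≠ 0 ∧ h' ⊗ₜ[ℂ] (1 : R) ∈ J := by
    by_contra hcon
    push Not at hcon
    let ι : S →ₐ[ℂ] (S ⊗[ℂ] R) ⧸ J :=
      (Ideal.Quotient.mkₐ ℂ J).comp Algebra.TensorProduct.includeLeft
    have hι : Function.Injective ι := by
      rw [injective_iff_map_eq_zero]
      intro x hx
      by_contra hx0
      exact hcon x hx0 (Ideal.Quotient.eq_zero_iff_mem.mp hx)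
    have : Algebra.FiniteType ℂ ((S ⊗[ℂ] R) ⧸ J) :=
      Algebra.FiniteType.of_surjective (Ideal.Quotient.mkₐ ℂ J) (Ideal.Quotient.mkₐ_surjective ℂ J)
    obtain ⟨h2, h20, hlift⟩ := hGLIFT S ((S ⊗[ℂ] R) ⧸ J) ι hι
    choose hh hh0 hsl using fun i k => hSLICE S R (N' i k) (D' i k)
    have hprod : h2 * ∏ i, ∏ k, hh i k ≠ 0 := by
      refine mul_ne_zero h20 ?_
      exact Finset.prod_ne_zero_iff.mpr fun i _ => Finset.prod_ne_zero_iff.mpr fun k _ => hh0 i k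
    have hγ : ∃ γ ∈ Γ, γ (h2 * ∏ i, ∏ k, hh i k) ≠ 0 := by
      by_contra hc
      push Not at hc
      exact hprod (hΓ _ hc)
    obtain ⟨γ, hγΓ, hγ⟩ := hγ
    rw [map_mul, map_prod] at hγ
    have hγ1 : γ h2 ≠ 0 := left_ne_zero_of_mul hγ
    have hγ2 : ∀ i k, γ (hh i k) ≠ 0 := by
      intro i k
      have h1 := Finset.prod_ne_zero_iff.mp (right_ne_zero_of_mul hγ) i (Finset.mem_univ i)
      rw [map_prod] at h1
      exact Finset.prod_ne_zero_iff.mp h1 k (Finset.mem_univ k)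
    obtain ⟨ζ, hζ⟩ := hlift γ hγ1
    let φ : R →ₐ[ℂ] ℂ :=
      (ζ.comp (Ideal.Quotient.mkₐ ℂ J)).comp Algebra.TensorProduct.includeRight
    have hζφ : ζ.comp (Ideal.Quotient.mkₐ ℂ J) = φ.comp (evT γ) := by
      refine Algebra.TensorProduct.ext' fun x r => ?_
      have h1 : (x ⊗ₜ[ℂ] r : S ⊗[ℂ] R) = (x ⊗ₜ[ℂ] (1 : R)) * ((1 : S) ⊗ₜ[ℂ] r) := by
        rw [Algebra.TensorProduct.tmul_mul_tmul, mul_one, one_mul]
      rw [AlgHom.comp_apply φ, REGOPEN_evT_tmul, map_smul, h1, map_mul]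
      have h2 : (ζ.comp (Ideal.Quotient.mkₐ ℂ J)) (x ⊗ₜ[ℂ] (1 : R)) = γ x := by
        rw [← hζ]; rfl
      rw [h2, smul_eq_mul]
      rfl
    obtain ⟨i, hi⟩ := hyp γ hγΓ φ
    have hig : i ∈ good := (hgood i).mpr fun k h => (hi k).1 (h γ)
    have hk : ∀ k, ∃ e q : S ⊗[ℂ] R, e * N' i k = q * D' i k ∧
        (ζ.comp (Ideal.Quotient.mkₐ ℂ J)) e ≠ 0 := by
      intro k
      obtain ⟨hD0, q0, e0, he0, hqe⟩ := hi k
      have h1 : e0 * evT γ (N' i k) = q0 * evT γ (D' i k) := by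
        apply Subtype.ext
        push_cast
        rw [hN', hD', ← hqe]
        field_simp
      obtain ⟨e, q, a, heq, hev⟩ := hsl i k γ (hγ2 i k) e0 q0 h1
      refine ⟨e, q, heq, ?_⟩
      rw [hζφ, AlgHom.comp_apply, hev, map_smul, smul_eq_mul]
      exact mul_ne_zero (pow_ne_zero _ (hγ2 i k)) he0
    choose e q heq he0 using hk
    have hE : (∏ k, e k) ∈ J := by
      refine hJ i hig _ fun k => ⟨(∏ l ∈ Finset.univ.erase k, e l) * q k, ?_⟩
      rw [← Finset.prod_erase_mul _ _ (Finset.mem_univ k), mul_assoc, heq, mul_assoc]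
    have hE0 : (ζ.comp (Ideal.Quotient.mkₐ ℂ J)) (∏ k, e k) = 0 := by
      rw [AlgHom.comp_apply, Ideal.Quotient.mkₐ_eq_mk, Ideal.Quotient.eq_zero_iff_mem.mpr hE,
        map_zero]
    rw [map_prod] at hE0
    exact Finset.prod_ne_zero_iff.mpr (fun k _ => he0 k) hE0
  obtain ⟨h', hh'0, hh'J⟩ := claim
  refine ⟨h' * ∏ i, ∏ k, s i k, ?_, ?_⟩
  · refine mul_ne_zero hh'0 ?_
    exact Finset.prod_ne_zero_iff.mpr fun i _ => Finset.prod_ne_zero_iff.mpr fun k _ => hs0 i k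
  · intro z hz φ
    rw [map_mul, map_prod] at hz
    have hz1 : z h' ≠ 0 := left_ne_zero_of_mul hz
    have hz2 : ∀ i k, z (s i k) ≠ 0 := by
      intro i k
      have h1 := Finset.prod_ne_zero_iff.mp (right_ne_zero_of_mul hz) i (Finset.mem_univ i)
      rw [map_prod] at h1
      exact Finset.prod_ne_zero_iff.mp h1 k (Finset.mem_univ k)
    have hnotle : ¬ J ≤ RingHom.ker (φ.comp (evT z)) := by
      intro hle
      have h1 : (φ.comp (evT z)) (h' ⊗ₜ[ℂ] (1 : R)) = 0 := hle hh'J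
      rw [AlgHom.comp_apply, REGOPEN_evT_tmul, map_smul, map_one, smul_eq_mul, mul_one] at h1
      exact hz1 h1
    have hex : ∃ i ∈ good, ∃ e, (∀ k, ∃ q, e * N' i k = q * D' i k) ∧
        (φ.comp (evT z)) e ≠ 0 := by
      by_contra hc
      push Not at hc
      apply hnotle
      refine iSup_le fun i => ?_
      intro e he
      exact hc i.1 i.2 e he
    obtain ⟨i, hig, e, he, hez⟩ := hex
    refine ⟨i, fun k => ?_⟩
    have hDz : D i k z ≠ 0 := hs i k hig z (hz2 i k)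
    obtain ⟨q, hq⟩ := he k
    refine ⟨hDz, evT z q, evT z e, hez, ?_⟩
    have h1 := congrArg (fun x : R => (x : K)) (congrArg (evT z) hq)
    simp only [map_mul] at h1
    push_cast at h1
    rw [hN', hD'] at h1
    have h2 : (b i k : K) ≠ 0 := hb i k
    have h3 : ((evT z e : R) : K) * N i k z = (evT z q : R) * D i k z := by
      apply mul_left_cancel₀ h2
      linear_combination h1
    rw [div_mul_eq_mul_div, div_eq_iff hDz, mul_comm, h3]

theorem st_REGOPEN (hSLICE : ST_SLICE) (hGLIFT : ST_GLIFT) : ST_REGOPEN := by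
  intro K _ _ n m R hR S _ _ _ _ Γ hΓ N D hN hD hyp
  have h1 : ∀ j, ∃ h : S, h ≠ 0 ∧ ∀ z : S →ₐ[ℂ] ℂ, z h ≠ 0 → ∀ φ : R j →ₐ[ℂ] ℂ, ∃ i, ∀ k,
      D i k z ≠ 0 ∧ N i k z / D i k z ∈ locAt (R j) φ := fun j =>
    REGOPEN_one hSLICE hGLIFT K n m (R j) (hR j) S Γ hΓ N D hN hD
      (fun γ hγ φ => hyp γ hγ j φ)
  choose h hh0 hh using h1
  refine ⟨∏ j, h j, Finset.prod_ne_zero_iff.mpr fun j _ => hh0 j, fun z hz j φ => ?_⟩
  rw [map_prod] at hz
  exact hh j z (Finset.prod_ne_zero_iff.mp hz j (Finset.mem_univ j)) φ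

end Pool.Agent.Helper43.FV
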